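import Pool.Agent.Helper70.DK.Defs2

/-!
# Module HFIN: Hausdorff dimension of sticky Kakeya sets with few patterns and finitely many increments
-/

set_option autoImplicit false

namespace Pool.Agent.Helper70.DK

open Finset MeasureTheory

/-! ### choice of the number of letters -/

theorem hfin_LK (m b r : ℕ) (ε : ℝ) (hm : 1 ≤ m) (hb : 2 ≤ b) (hε : 0 < ε) :
    ∃ L K : ℕ, 1 ≤ L ∧ 1 ≤ K ∧ K * r ≤ (b ^ L - 1) ^ m ∧
      ((m : ℝ) - ε) * Real.log ((b ^ L : ℕ) : ℝ) ≤ Real.log (K : ℝ) := by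
  have hb1 : (1 : ℝ) < (b : ℝ) := by exact_mod_cast (by omega : 1 < b)
  have hlb : 0 < Real.log (b : ℝ) := Real.log_pos hb1
  set Y : ℝ := ((m : ℝ) + 1) * Real.log 2 + Real.log ((r : ℝ) + 1) with hY
  obtain ⟨L0, hL0⟩ := exists_nat_ge (Y / (ε * Real.log b))
  set L : ℕ := max (max L0 (r + 1)) 1 with hL
  have hL1 : 1 ≤ L := le_max_right _ _
  have hLr : r + 1 ≤ L := le_trans (le_max_right _ _) (le_max_left _ _)
  have hLL : L0 ≤ L := le_trans (le_max_left _ _) (le_max_left _ _)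
  have hbL : L + 1 ≤ b ^ L := (Nat.lt_pow_self (by omega : 1 < b))
  have hbL2 : 2 ≤ b ^ L := by omega
  set X : ℕ := (b ^ L - 1) ^ m with hX
  have hXr : r + 1 ≤ X := by
    calc r + 1 ≤ b ^ L - 1 := by omega
      _ = (b ^ L - 1) ^ 1 := (pow_one _).symm
      _ ≤ (b ^ L - 1) ^ m := Nat.pow_le_pow_right (by omega) hm
  set K : ℕ := X / (r + 1) with hK
  have hK1 : 1 ≤ K := by
    rw [hK]
    exact (Nat.one_le_div_iff (by omega)).2 hXr
  have hKr : K * (r + 1) ≤ X := Nat.div_mul_le_self _ _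
  refine ⟨L, K, hL1, hK1, ?_, ?_⟩
  · calc K * r ≤ K * (r + 1) := Nat.mul_le_mul_left _ (by omega)
      _ ≤ X := hKr
  · have h1 : X < K * (r + 1) + (r + 1) := Nat.lt_div_mul_add (by omega)
    have h2 : X ≤ 2 * K * (r + 1) := by nlinarith
    have h3 : b ^ L ≤ 2 * (b ^ L - 1) := by omega
    have h4 : (b ^ L) ^ m ≤ 2 ^ m * X := by
      calc (b ^ L) ^ m ≤ (2 * (b ^ L - 1)) ^ m := Nat.pow_le_pow_left h3 m
        _ = 2 ^ m * X := by rw [mul_pow]
    have h5 : (b ^ L) ^ m ≤ 2 ^ (m + 1) * (r + 1) * K := by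
      calc (b ^ L) ^ m ≤ 2 ^ m * X := h4
        _ ≤ 2 ^ m * (2 * K * (r + 1)) := Nat.mul_le_mul_left _ h2
        _ = 2 ^ (m + 1) * (r + 1) * K := by ring
    have h6 : ((b ^ L : ℕ) : ℝ) ^ m ≤ 2 ^ (m + 1) * ((r : ℝ) + 1) * K := by exact_mod_cast h5
    have hB0 : (0 : ℝ) < ((b ^ L : ℕ) : ℝ) := by exact_mod_cast (by omega : 0 < b ^ L)
    have hK0 : (0 : ℝ) < (K : ℝ) := by exact_mod_cast (by omega : 0 < K)
    have hr0 : (0 : ℝ) < (r : ℝ) + 1 := by positivity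
    have h7 := Real.log_le_log (pow_pos hB0 m) h6
    rw [Real.log_pow, Real.log_mul (by positivity) hK0.ne', Real.log_mul (by positivity) hr0.ne',
      Real.log_pow] at h7
    have h8 : Real.log ((b ^ L : ℕ) : ℝ) = L * Real.log b := by
      push_cast
      rw [Real.log_pow]
    have h9 : Y ≤ ε * (L * Real.log b) := by
      have h10 : Y ≤ (L0 : ℝ) * (ε * Real.log b) := (div_le_iff₀ (by positivity)).1 hL0
      have h11 : (L0 : ℝ) ≤ (L : ℝ) := by exact_mod_cast hLL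
      calc Y ≤ (L0 : ℝ) * (ε * Real.log b) := h10
        _ ≤ (L : ℝ) * (ε * Real.log b) := mul_le_mul_of_nonneg_right h11 (by positivity)
        _ = ε * (L * Real.log b) := by ring
    rw [sub_mul]
    rw [h8] at h7 ⊢
    push_cast at h7
    linarith

/-! ### separated words -/

theorem hfin_sel (hE2 : ST_E2) (m : ℕ) {W : Type} [Fintype W] [Nonempty W]
    (f : W → Fin m → ℝ) (Δ : ℕ) (hΔ : 1 ≤ Δ) :
    ∃ (n : ℕ) (w : ℕ → W), 1 ≤ n ∧
      Real.exp (ent (univ : Finset W) (fun u => fl (f u))) / (Δ : ℝ) ^ m ≤ n ∧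
      ∀ s s', s < n → s' < n → s ≠ s' → ∃ c, (Δ : ℝ) - 1 ≤ |f (w s) c - f (w s') c| := by
  classical
  set Z : Finset (Fin m → ℤ) := univ.image (fun u => fl (f u)) with hZ
  have hZne : Z.Nonempty := Finset.univ_nonempty.image _
  have hZpos : (0 : ℝ) < (Z.card : ℝ) := by exact_mod_cast hZne.card_pos
  have hent : Real.exp (ent (univ : Finset W) (fun u => fl (f u))) ≤ Z.card := by
    have h := hE2.2.2 W (Fin m → ℤ) univ (fun u => fl (f u)) Z
      (fun x _ => Finset.mem_image_of_mem _ (Finset.mem_univ x))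
    calc Real.exp (ent (univ : Finset W) (fun u => fl (f u))) ≤ Real.exp (Real.log Z.card) :=
          Real.exp_le_exp.2 h
      _ = Z.card := Real.exp_log hZpos
  have hΔZ : (0 : ℤ) < (Δ : ℤ) := by exact_mod_cast hΔ
  have hΔR : (0 : ℝ) < (Δ : ℝ) ^ m := by positivity
  set Tt : Finset (Fin m → ℤ) := Fintype.piFinset (fun _ => Finset.Ico (0 : ℤ) Δ) with hTt
  have hTcard : Tt.card = Δ ^ m := by
    rw [hTt, Fintype.card_piFinset]
    simp
  have hTne : Tt.Nonempty := by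
    refine ⟨fun _ => 0, ?_⟩
    rw [hTt, Fintype.mem_piFinset]
    intro i
    rw [Finset.mem_Ico]
    exact ⟨le_rfl, hΔZ⟩
  have hmaps : ∀ z ∈ Z, (fun c => z c % (Δ : ℤ)) ∈ Tt := by
    intro z _
    rw [hTt, Fintype.mem_piFinset]
    intro i
    rw [Finset.mem_Ico]
    exact ⟨Int.emod_nonneg _ hΔZ.ne', Int.emod_lt_of_pos _ hΔZ⟩
  have hb : Tt.card • ((Z.card : ℝ) / (Δ : ℝ) ^ m) ≤ (Z.card : ℝ) := by
    rw [hTcard, nsmul_eq_mul]
    push_cast
    rw [mul_div_cancel₀ _ hΔR.ne']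
  obtain ⟨y, _, hy⟩ := Finset.exists_le_card_fiber_of_nsmul_le_card_of_maps_to hmaps hTne hb
  set Z' : Finset (Fin m → ℤ) := Z.filter (fun z => (fun c => z c % (Δ : ℤ)) = y) with hZ'
  have hZ'pos : (0 : ℝ) < (Z'.card : ℝ) := lt_of_lt_of_le (by positivity) hy
  have hn1 : 1 ≤ Z'.card := by exact_mod_cast hZ'pos
  have hch : ∀ z : Fin m → ℤ, ∃ u : W, z ∈ Z → fl (f u) = z := by
    intro z
    by_cases hz : z ∈ Z
    · obtain ⟨u, _, hu⟩ := Finset.mem_image.1 hz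
      exact ⟨u, fun _ => hu⟩
    · exact ⟨Classical.arbitrary W, fun h => absurd h hz⟩
  choose g hg using hch
  refine ⟨Z'.card, fun s => if h : s < Z'.card then g (Z'.equivFin.symm ⟨s, h⟩ : Fin m → ℤ)
    else Classical.arbitrary W, hn1, ?_, ?_⟩
  · calc Real.exp (ent (univ : Finset W) (fun u => fl (f u))) / (Δ : ℝ) ^ m
        ≤ (Z.card : ℝ) / (Δ : ℝ) ^ m := div_le_div_of_nonneg_right hent hΔR.le
      _ ≤ Z'.card := hy
  · intro s s' hs hs' hne
    simp only [dif_pos hs, dif_pos hs']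
    set z : Z' := Z'.equivFin.symm ⟨s, hs⟩ with hz
    set z' : Z' := Z'.equivFin.symm ⟨s', hs'⟩ with hz'
    have hzz : (z : Fin m → ℤ) ≠ (z' : Fin m → ℤ) := by
      intro h
      have h1 : z = z' := Subtype.ext h
      have h2 := Z'.equivFin.symm.injective h1
      exact hne (Fin.mk.inj_iff.1 h2)
    have hzm := Finset.mem_filter.1 z.2
    have hzm' := Finset.mem_filter.1 z'.2
    obtain ⟨c, hc⟩ := Function.ne_iff.1 hzz
    refine ⟨c, ?_⟩
    have e1 : fl (f (g z)) = (z : Fin m → ℤ) := hg _ hzm.1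
    have e2 : fl (f (g z')) = (z' : Fin m → ℤ) := hg _ hzm'.1
    have h1 : ⌊f (g z) c⌋ = (z : Fin m → ℤ) c := congrFun e1 c
    have h2 : ⌊f (g z') c⌋ = (z' : Fin m → ℤ) c := congrFun e2 c
    have hmod : (z : Fin m → ℤ) c % (Δ : ℤ) = (z' : Fin m → ℤ) c % (Δ : ℤ) := by
      have h3 := congrFun hzm.2 c
      have h4 := congrFun hzm'.2 c
      exact h3.trans h4.symm
    have hdvd : (Δ : ℤ) ∣ (z : Fin m → ℤ) c - (z' : Fin m → ℤ) c :=
      Int.dvd_of_emod_eq_zero (by rw [Int.sub_emod, hmod, sub_self, Int.zero_emod])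
    have habs : (Δ : ℤ) ≤ |(z : Fin m → ℤ) c - (z' : Fin m → ℤ) c| :=
      Int.le_of_dvd (abs_pos.2 (sub_ne_zero.2 hc)) ((dvd_abs _ _).2 hdvd)
    have habsR : (Δ : ℝ) ≤ |((z : Fin m → ℤ) c : ℝ) - ((z' : Fin m → ℤ) c : ℝ)| := by
      exact_mod_cast habs
    have b1 := Int.floor_le (f (g z) c)
    have b2 := Int.lt_floor_add_one (f (g z) c)
    have b3 := Int.floor_le (f (g z') c)
    have b4 := Int.lt_floor_add_one (f (g z') c)
    rw [h1] at b1 b2
    rw [h2] at b3 b4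
    rcases le_abs.1 habsR with h | h
    · refine le_trans ?_ (le_abs_self _)
      linarith
    · refine le_trans ?_ (neg_le_abs _)
      linarith

/-! ### product of the numbers of pieces -/

theorem hfin_prod (nn : ℕ → ℕ) (p : ℕ → Prop) [DecidablePred p] (G ε : ℝ) (hG : 1 ≤ G)
    (h1 : ∀ i, 1 ≤ nn i) (h2 : ∀ i, ¬ p i → G ≤ nn i) (j : ℕ)
    (hp : (((Finset.range j).filter p).card : ℝ) ≤ ε * j) :
    G ^ ((1 - ε) * (j : ℝ)) ≤ ∏ i ∈ Finset.range j, (nn i : ℝ) := by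
  have hG0 : 0 < G := by linarith
  have e : ((Finset.range j).filter p).card + ((Finset.range j).filter (fun i => ¬ p i)).card = j := by
    rw [Finset.card_filter_add_card_filter_not, Finset.card_range]
  have e' : (((Finset.range j).filter p).card : ℝ)
      + (((Finset.range j).filter (fun i => ¬ p i)).card : ℝ) = j := by exact_mod_cast e
  calc G ^ ((1 - ε) * (j : ℝ)) ≤ G ^ ((((Finset.range j).filter (fun i => ¬ p i)).card : ℕ) : ℝ) := by
        refine Real.rpow_le_rpow_of_exponent_le hG ?_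
        linarith
    _ = G ^ ((Finset.range j).filter (fun i => ¬ p i)).card := Real.rpow_natCast _ _
    _ = ∏ i ∈ Finset.range j, (if p i then (1 : ℝ) else G) := by
        rw [Finset.prod_ite, Finset.prod_const_one, one_mul, Finset.prod_const]
    _ ≤ ∏ i ∈ Finset.range j, (nn i : ℝ) := by
        refine Finset.prod_le_prod (fun i _ => ?_) (fun i _ => ?_)
        · split_ifs
          exacts [zero_le_one, hG0.le]
        · split_ifs with h
          · exact_mod_cast h1 i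
          · exact h2 i h

/-! ### grouping of the digits into blocks -/

theorem hfin_tsum (n : ℕ) (hn : 1 ≤ n) (B : ℝ) (hB : 1 < B) (g : ℕ → ℝ) (C : ℝ)
    (hg : ∀ i, |g i| ≤ C) :
    ∑' i : ℕ, g i / B ^ (i + 1)
      = ∑' j : ℕ, (∑ q : Fin n, B ^ (n - 1 - (q : ℕ)) * g (j * n + q)) / (B ^ n) ^ (j + 1) := by
  have hB0 : 0 < B := by linarith
  have : NeZero n := ⟨by omega⟩
  have hsum : Summable (fun i : ℕ => g i / B ^ (i + 1)) := by
    refine Summable.of_norm_bounded (g := fun i : ℕ => C / B * (1 / B) ^ i) ?_ ?_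
    · exact (summable_geometric_of_lt_one (by positivity) (by
        rw [div_lt_one hB0]; exact hB)).mul_left _
    · intro i
      rw [Real.norm_eq_abs, abs_div, abs_of_pos (pow_pos hB0 _), pow_succ, one_div, inv_pow]
      have e : C / B * (B ^ i)⁻¹ = C / (B ^ i * B) := by
        field_simp
      rw [e]
      exact div_le_div_of_nonneg_right (hg i) (by positivity)
  rw [← Equiv.tsum_eq (Nat.divModEquiv n).symm]
  have hs2 : Summable (fun p : ℕ × Fin n => g ((Nat.divModEquiv n).symm p)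
      / B ^ ((Nat.divModEquiv n).symm p + 1)) := (Nat.divModEquiv n).symm.summable_iff.2 hsum
  rw [hs2.tsum_prod]
  refine tsum_congr fun j => ?_
  rw [tsum_fintype, Finset.sum_div]
  refine Finset.sum_congr rfl fun q _ => ?_
  have e1 : (Nat.divModEquiv n).symm (j, q) = j * n + q := by
    simp [Nat.divModEquiv]
  rw [e1]
  have hq : (q : ℕ) < n := q.2
  have e2 : (B ^ n) ^ (j + 1) = B ^ (j * n + q + 1) * B ^ (n - 1 - (q : ℕ)) := by
    rw [← pow_mul, ← pow_add]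
    congr 1
    have : n * (j + 1) = j * n + n := by ring
    omega
  rw [e2]
  have h3 : B ^ (n - 1 - (q : ℕ)) ≠ 0 := (pow_pos hB0 _).ne'
  have h4 : B ^ (j * n + (q : ℕ) + 1) ≠ 0 := (pow_pos hB0 _).ne'
  field_simp

/-! ### one slice -/

theorem hfin_slice (hE2 : ST_E2) (hPB : ST_PB) (hM : ST_MORAN) (m K B a : ℕ) (R' ε t : ℝ)
    (hm : 1 ≤ m) (hB : 2 ≤ B) (hK : 1 ≤ K) (hR' : 0 ≤ R') (ht0 : 0 ≤ t) (ht1 : t ≤ 1)
    (hε : 0 < ε) (hε1 : ((m : ℝ) + 3) * ε < 1) (hε3 : ε ≤ 1 / 3)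
    (σ : Sys m (Fin K)) (hσ : σ.Ok B R') (F : Set (Fin m → ℝ)) (x0 : Fin m → ℝ)
    (hF : ∀ ω : ℕ → Fin K, (fun c => x0 c + ∑' j : ℕ, (σ.ph j (ω j) c + t * (σ.dg j (ω j) c : ℝ))
      / (B : ℝ) ^ (j + 1)) ∈ F)
    (Δ : ℕ) (hΔ : 4 * (R' + B) + 2 ≤ (Δ : ℝ))
    (ha : (m : ℝ) * Real.log Δ ≤ ε * (2 : ℝ) ^ a * Real.log B) (N0 : ℕ)
    (hN0 : ∀ N, N0 ≤ N → (((Finset.range N).filter (fun q => ent (univ : Finset (Fin (2 ^ a) → Fin K))
        (fun u => fl (σ.P B t (q * 2 ^ a) (2 ^ a) u)) < (m - ε - ε) * 2 ^ a * Real.log B)).card : ℝ)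
        ≤ ε * N) :
    ENNReal.ofReal ((m : ℝ) - (m + 3) * ε) ≤ dimH F := by
  classical
  have hBR : (1 : ℝ) < (B : ℝ) := by exact_mod_cast (by omega : 1 < B)
  have hB0 : (0 : ℝ) < (B : ℝ) := by linarith
  have hlB : 0 < Real.log (B : ℝ) := Real.log_pos hBR
  have hmR : (1 : ℝ) ≤ (m : ℝ) := by exact_mod_cast hm
  have hΔ1 : (1 : ℝ) ≤ (Δ : ℝ) := by linarith
  have hΔ1' : 1 ≤ Δ := by exact_mod_cast hΔ1
  have : Nonempty (Fin K) := ⟨⟨0, by omega⟩⟩
  set n : ℕ := 2 ^ a with hn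
  have hn1 : 1 ≤ n := Nat.one_le_two_pow
  have hnR : (n : ℝ) = (2 : ℝ) ^ a := by rw [hn]; push_cast; rfl
  have hnR1 : (1 : ℝ) ≤ (n : ℝ) := by exact_mod_cast hn1
  -- selection of words in every block
  have hsel := fun j : ℕ => hfin_sel hE2 m (fun u : Fin n → Fin K => σ.P B t (j * n) n u) Δ hΔ1'
  choose nn w hnn1 hnn2 hnn3 using hsel
  set Λ : ℕ := B ^ n with hΛ
  have hΛR : (Λ : ℝ) = (B : ℝ) ^ n := by rw [hΛ]; push_cast; rfl
  have hΛ2 : 2 ≤ Λ := by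
    calc 2 ≤ B := hB
      _ = B ^ 1 := (pow_one _).symm
      _ ≤ B ^ n := Nat.pow_le_pow_right (by omega) hn1
  have hΛ1 : (1 : ℝ) < (Λ : ℝ) := by exact_mod_cast (by omega : 1 < Λ)
  have hΛ0 : (0 : ℝ) < (Λ : ℝ) := by linarith
  have hlΛ : Real.log (Λ : ℝ) = n * Real.log B := by rw [hΛR, Real.log_pow]
  set s0 : ℝ := (m : ℝ) - (m + 3) * ε with hs0
  have hs0p : 0 < s0 := by rw [hs0]; linarith
  set G : ℝ := Real.exp (((m : ℝ) - ε - ε) * 2 ^ a * Real.log B) / (Δ : ℝ) ^ m with hG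
  have hΔm : (0 : ℝ) < (Δ : ℝ) ^ m := by positivity
  have hGlog : Real.log G = ((m : ℝ) - ε - ε) * 2 ^ a * Real.log B - m * Real.log Δ := by
    rw [hG, Real.log_div (Real.exp_pos _).ne' hΔm.ne', Real.log_exp, Real.log_pow]
  have hG0 : 0 < G := by rw [hG]; positivity
  have h2a : (0 : ℝ) < (2 : ℝ) ^ a := by positivity
  have hX : 0 < (2 : ℝ) ^ a * Real.log B := mul_pos h2a hlB
  have hGl1 : ((m : ℝ) - 3 * ε) * ((2 : ℝ) ^ a * Real.log B) ≤ Real.log G := by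
    rw [hGlog]
    nlinarith [ha]
  have hGl0 : 0 ≤ Real.log G := le_trans (mul_nonneg (by linarith) hX.le) hGl1
  have hG1 : 1 ≤ G := by
    by_contra h
    push Not at h
    have := Real.log_neg hG0 h
    linarith
  set p : ℕ → Prop := fun q => ent (univ : Finset (Fin (2 ^ a) → Fin K))
        (fun u => fl (σ.P B t (q * 2 ^ a) (2 ^ a) u)) < (m - ε - ε) * 2 ^ a * Real.log B with hp
  have hgood : ∀ i, ¬ p i → G ≤ nn i := by
    intro i hi
    have h1 : ((m : ℝ) - ε - ε) * 2 ^ a * Real.log B ≤ ent (univ : Finset (Fin n → Fin K))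
        (fun u => fl (σ.P B t (i * n) n u)) := not_lt.1 hi
    refine le_trans ?_ (hnn2 i)
    rw [hG]
    exact div_le_div_of_nonneg_right (Real.exp_le_exp.2 h1) hΔm.le
  obtain ⟨-, hPB2, -, -, -⟩ := hPB m B R' t (Fin K) σ hB hR' ht0 ht1 hσ
  have hbd : ∀ i s c, |σ.ph i s c + t * (σ.dg i s c : ℝ)| ≤ R' + B := by
    intro i s c
    have h1 := hσ.2.2 i s c
    have h2 := hσ.1 i s c
    have h3 : (0 : ℝ) ≤ (σ.dg i s c : ℝ) := by exact_mod_cast h2.1
    have h4 : (σ.dg i s c : ℝ) ≤ (B : ℝ) := by exact_mod_cast h2.2.le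
    have h5 : |t * (σ.dg i s c : ℝ)| ≤ B := by
      rw [abs_of_nonneg (mul_nonneg ht0 h3)]
      nlinarith
    calc |σ.ph i s c + t * (σ.dg i s c : ℝ)| ≤ |σ.ph i s c| + |t * (σ.dg i s c : ℝ)| := abs_add_le _ _
      _ ≤ R' + B := add_le_add h1 h5
  refine hM m Λ (R' + B) s0 ((Λ : ℝ) ^ (-(s0 * (N0 : ℝ)))) F x0 nn
    (fun j s c => σ.P B t (j * n) n (w j s) c) hΛ2 (by positivity) hs0p
    (Real.rpow_pos_of_pos hΛ0 _) hnn1 ?_ ?_ ?_ ?_
  · intro j s c _
    rw [hΛR]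
    exact hPB2 _ _ _ _
  · intro j s s' hs hs' hne
    obtain ⟨c, hc⟩ := hnn3 j s s' hs hs' hne
    exact ⟨c, le_trans (by linarith) hc⟩
  · intro ω hω
    have h := hF (fun i => w (i / n) (ω (i / n)) ⟨i % n, Nat.mod_lt _ (by omega)⟩)
    have e : (fun c => x0 c + ∑' j : ℕ, σ.P B t (j * n) n (w j (ω j)) c / (Λ : ℝ) ^ (j + 1))
        = (fun c => x0 c + ∑' j : ℕ, (σ.ph j (w (j / n) (ω (j / n)) ⟨j % n, Nat.mod_lt _ (by omega)⟩) c
          + t * (σ.dg j (w (j / n) (ω (j / n)) ⟨j % n, Nat.mod_lt _ (by omega)⟩) c : ℝ))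
            / (B : ℝ) ^ (j + 1)) := by
      funext c
      congr 1
      rw [hfin_tsum n hn1 (B : ℝ) hBR (fun j => σ.ph j (w (j / n) (ω (j / n))
        ⟨j % n, Nat.mod_lt _ (by omega)⟩) c + t * (σ.dg j (w (j / n) (ω (j / n))
        ⟨j % n, Nat.mod_lt _ (by omega)⟩) c : ℝ)) (R' + B) (fun i => hbd _ _ _)]
      refine tsum_congr fun j => ?_
      rw [hΛR]
      congr 1
      unfold Sys.P
      refine Finset.sum_congr rfl fun q _ => ?_
      have e1 : (j * n + (q : ℕ)) / n = j := by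
        rw [Nat.add_comm, Nat.add_mul_div_right _ _ (by omega : 0 < n), Nat.div_eq_of_lt q.2, zero_add]
      have e2 : (j * n + (q : ℕ)) % n = q := by
        rw [Nat.add_comm, Nat.add_mul_mod_self_right, Nat.mod_eq_of_lt q.2]
      have e3 : w ((j * n + (q : ℕ)) / n) (ω ((j * n + (q : ℕ)) / n))
          ⟨(j * n + (q : ℕ)) % n, Nat.mod_lt _ (by omega)⟩ = w j (ω j) q := by
        have e4 : (⟨(j * n + (q : ℕ)) % n, Nat.mod_lt _ (by omega)⟩ : Fin n) = q := Fin.ext e2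
        rw [e4, e1]
      rw [e3]
    rw [e]
    exact h
  · intro j
    have hprod1 : (1 : ℝ) ≤ ∏ i ∈ Finset.range j, (nn i : ℝ) := by
      calc (1 : ℝ) = ∏ i ∈ Finset.range j, (1 : ℝ) := (Finset.prod_const_one).symm
        _ ≤ ∏ i ∈ Finset.range j, (nn i : ℝ) :=
          Finset.prod_le_prod (fun i _ => zero_le_one) (fun i _ => by exact_mod_cast hnn1 i)
    rcases le_or_gt N0 j with hj | hj
    · have h1 := hfin_prod nn p G ε hG1 hnn1 hgood j (hN0 j hj)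
      have hj0 : (0 : ℝ) ≤ (j : ℝ) := Nat.cast_nonneg j
      have hc0 : (Λ : ℝ) ^ (-(s0 * (N0 : ℝ))) ≤ 1 :=
        Real.rpow_le_one_of_one_le_of_nonpos hΛ1.le (by
          have : 0 ≤ s0 * (N0 : ℝ) := by positivity
          linarith)
      calc (Λ : ℝ) ^ (-(s0 * (N0 : ℝ))) * (Λ : ℝ) ^ (s0 * (j : ℝ))
          ≤ 1 * (Λ : ℝ) ^ (s0 * (j : ℝ)) :=
            mul_le_mul_of_nonneg_right hc0 (Real.rpow_nonneg hΛ0.le _)
        _ = Real.exp (Real.log Λ * (s0 * j)) := by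
            rw [one_mul, Real.rpow_def_of_pos hΛ0]
        _ ≤ Real.exp (Real.log G * ((1 - ε) * j)) := by
            refine Real.exp_le_exp.2 ?_
            rw [hlΛ, hnR]
            have h3 : s0 * ((2 : ℝ) ^ a * Real.log B) ≤ (1 - ε) * Real.log G := by
              calc s0 * ((2 : ℝ) ^ a * Real.log B)
                  ≤ ((1 - ε) * ((m : ℝ) - 3 * ε)) * ((2 : ℝ) ^ a * Real.log B) := by
                    refine mul_le_mul_of_nonneg_right ?_ hX.le
                    rw [hs0]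
                    nlinarith
                _ = (1 - ε) * (((m : ℝ) - 3 * ε) * ((2 : ℝ) ^ a * Real.log B)) := by ring
                _ ≤ (1 - ε) * Real.log G := mul_le_mul_of_nonneg_left hGl1 (by linarith)
            nlinarith [mul_le_mul_of_nonneg_right h3 hj0]
        _ = G ^ ((1 - ε) * (j : ℝ)) := by rw [Real.rpow_def_of_pos hG0]
        _ ≤ ∏ i ∈ Finset.range j, (nn i : ℝ) := h1
    · refine le_trans ?_ hprod1
      rw [← Real.rpow_add hΛ0]
      refine Real.rpow_le_one_of_one_le_of_nonpos hΛ1.le ?_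
      have : (j : ℝ) ≤ (N0 : ℝ) := by exact_mod_cast hj.le
      nlinarith

theorem st_HFIN (hCO : ST_COREH) (hSL : ST_SLICE) (hM : ST_MORAN) (hA : ST_AUT) (hPB : ST_PB)
    (hE2 : ST_E2) : ST_HFIN := by
  intro m b r R hm hb hR a E hst hfp hfi hE
  have hmR : (1 : ℝ) ≤ (m : ℝ) := by exact_mod_cast hm
  refine le_antisymm ?_ ?_
  · calc dimH E ≤ dimH (Set.univ : Set (EuclideanSpace ℝ (Fin (m + 1)))) :=
          dimH_mono (Set.subset_univ _)
      _ = (m : ENNReal) + 1 := by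
          rw [Real.dimH_univ_eq_finrank, finrank_euclideanSpace, Fintype.card_fin]
          push_cast
          rfl
  -- lower bound
  have key : ∀ ε : ℝ, 0 < ε → ((m : ℝ) + 3) * ε < 1 → ε ≤ 1 / 3 →
      ENNReal.ofReal ((m : ℝ) - (m + 3) * ε + 1) ≤ dimH E := by
    intro ε hε hε1 hε3
    obtain ⟨L, K, hL, hK, hKr, hlog⟩ := hfin_LK m b r ε hm hb hε
    obtain ⟨σ, hσ, -, hinf, hrange⟩ := hA m b r L K R a hm hb hL hR hK hKr hst hfp
    have hB2 : 2 ≤ b ^ L := by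
      calc 2 ≤ b := hb
        _ = b ^ 1 := (pow_one _).symm
        _ ≤ b ^ L := Nat.pow_le_pow_right (by omega) hL
    have hBR : (1 : ℝ) < ((b ^ L : ℕ) : ℝ) := by exact_mod_cast (by omega : 1 < b ^ L)
    have hlB : 0 < Real.log ((b ^ L : ℕ) : ℝ) := Real.log_pos hBR
    have hR' : 0 ≤ (b : ℝ) ^ L * R := by positivity
    have : Nonempty (Fin K) := ⟨⟨0, by omega⟩⟩
    obtain ⟨Δ, hΔ⟩ := exists_nat_ge (4 * ((b : ℝ) ^ L * R + ((b ^ L : ℕ) : ℝ)) + 2)
    obtain ⟨amin, hamin⟩ := exists_nat_ge ((m : ℝ) * Real.log Δ / (ε * Real.log ((b ^ L : ℕ) : ℝ)))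
    have hco := hCO m (b ^ L) ((b : ℝ) ^ L * R) ε ε amin hm hB2 hR' hε.le hε (Fin K) σ hσ
      (by rw [Fintype.card_fin]; exact hlog) (hrange hfi)
    set P : ℝ → Prop := fun t => ∃ a, amin ≤ a ∧ ∃ N0 : ℕ, ∀ N, N0 ≤ N →
      (((Finset.range N).filter (fun q => ent (univ : Finset (Fin (2 ^ a) → Fin K))
        (fun u => fl (σ.P (b ^ L) t (q * 2 ^ a) (2 ^ a) u))
          < (m - ε - ε) * 2 ^ a * Real.log ((b ^ L : ℕ) : ℝ))).card : ℝ) ≤ ε * N with hP
    have hco' : ∀ᵐ t : ℝ, 0 ≤ t → t ≤ 1 → P t := hco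
    refine hSL m E {t | 0 ≤ t ∧ t ≤ 1 ∧ P t} ((m : ℝ) - (m + 3) * ε) (by linarith) ?_ ?_
    · intro h0
      have h1 : ∀ᵐ t : ℝ, t ∉ {t : ℝ | 0 ≤ t ∧ t ≤ 1 ∧ P t} := measure_eq_zero_iff_ae_notMem.1 h0
      have h2 : ∀ᵐ t : ℝ, t ∉ Set.Icc (0 : ℝ) 1 := by
        filter_upwards [h1, hco'] with t ht1 ht2 ht3
        exact ht1 ⟨ht3.1, ht3.2, ht2 ht3.1 ht3.2⟩
      have h3 : volume (Set.Icc (0 : ℝ) 1) = 0 := measure_eq_zero_iff_ae_notMem.2 h2
      rw [Real.volume_Icc] at h3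
      norm_num at h3
    · rintro t ⟨ht0, ht1, a', ha', N0, hN0⟩
      refine hfin_slice hE2 hPB hM m K (b ^ L) a' ((b : ℝ) ^ L * R) ε t hm hB2 hK hR' ht0 ht1 hε
        hε1 hε3 σ hσ _ (a 0) ?_ Δ hΔ ?_ N0 hN0
      · intro ω
        obtain ⟨x, hx, hx2⟩ := hinf ω
        show pt (fun c => a 0 c + ∑' j : ℕ, (σ.ph j (ω j) c + t * (σ.dg j (ω j) c : ℝ))
          / ((b ^ L : ℕ) : ℝ) ^ (j + 1)) t ∈ E
        have e : (fun c => a 0 c + ∑' j : ℕ, (σ.ph j (ω j) c + t * (σ.dg j (ω j) c : ℝ))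
            / ((b ^ L : ℕ) : ℝ) ^ (j + 1)) = (fun c => a x c + t * x c) := by
          funext c
          rw [hx2 t c]
          push_cast
          rfl
        rw [e]
        exact hE x hx t ht0 ht1
      · have h1 : (m : ℝ) * Real.log Δ ≤ (amin : ℝ) * (ε * Real.log ((b ^ L : ℕ) : ℝ)) :=
          (div_le_iff₀ (by positivity)).1 hamin
        have h2 : (amin : ℝ) ≤ (2 : ℝ) ^ a' := by
          have h3 : amin ≤ 2 ^ a' := le_trans ha' (Nat.lt_two_pow_self).le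
          exact_mod_cast h3
        calc (m : ℝ) * Real.log Δ ≤ (amin : ℝ) * (ε * Real.log ((b ^ L : ℕ) : ℝ)) := h1
          _ ≤ (2 : ℝ) ^ a' * (ε * Real.log ((b ^ L : ℕ) : ℝ)) :=
            mul_le_mul_of_nonneg_right h2 (by positivity)
          _ = ε * (2 : ℝ) ^ a' * Real.log ((b ^ L : ℕ) : ℝ) := by ring
  by_contra hlt
  push Not at hlt
  have hne : dimH E ≠ ⊤ := ne_top_of_lt hlt
  set d : ℝ := (dimH E).toReal with hd
  have hdE : dimH E = ENNReal.ofReal d := (ENNReal.ofReal_toReal hne).symm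
  have hd0 : 0 ≤ d := ENNReal.toReal_nonneg
  have hdm : d < (m : ℝ) + 1 := by
    have h1 : ENNReal.ofReal d < ENNReal.ofReal ((m : ℝ) + 1) := by
      rw [← hdE]
      have e : ENNReal.ofReal ((m : ℝ) + 1) = (m : ENNReal) + 1 := by
        rw [ENNReal.ofReal_add (by positivity) zero_le_one, ENNReal.ofReal_natCast,
          ENNReal.ofReal_one]
      rw [e]
      exact hlt
    exact (ENNReal.ofReal_lt_ofReal_iff_of_nonneg hd0).1 h1
  set ε : ℝ := min ((m + 1 - d) / (2 * (m + 3))) (1 / (2 * (m + 3))) with hεd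
  have hm3 : (0 : ℝ) < (m : ℝ) + 3 := by positivity
  have hε0 : 0 < ε := lt_min (div_pos (by linarith) (by positivity)) (by positivity)
  have hεa : ((m : ℝ) + 3) * ε ≤ (m + 1 - d) / 2 := by
    calc ((m : ℝ) + 3) * ε ≤ (m + 3) * ((m + 1 - d) / (2 * (m + 3))) :=
          mul_le_mul_of_nonneg_left (min_le_left _ _) hm3.le
      _ = (m + 1 - d) / 2 := by field_simp
  have hεb : ((m : ℝ) + 3) * ε ≤ 1 / 2 := by
    calc ((m : ℝ) + 3) * ε ≤ (m + 3) * (1 / (2 * (m + 3))) :=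
          mul_le_mul_of_nonneg_left (min_le_right _ _) hm3.le
      _ = 1 / 2 := by field_simp
  have h1 := key ε hε0 (by linarith) (by nlinarith)
  rw [hdE] at h1
  have h2 := (ENNReal.ofReal_le_ofReal_iff hd0).1 h1
  linarith

end Pool.Agent.Helper70.DK
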