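import Pool.Agent.Helper28.DK.MFINC
import Pool.Agent.Helper34.DK.HFIN

/-!
# Module HFINC: Hausdorff dimension of sticky Kakeya sets with finitely many increments is at least
`n` minus the pattern entropy
-/

set_option autoImplicit false

namespace Pool.Agent.Helper70.DK

open Finset MeasureTheory

/-! ### one slice -/

theorem hfinc_slice (hE2 : ST_E2) (hPB : ST_PB) (hM : ST_MORAN) (m K B a : ℕ) (R' ε t D : ℝ)
    (hm : 1 ≤ m) (hB : 2 ≤ B) (hK : 1 ≤ K) (hR' : 0 ≤ R') (ht0 : 0 ≤ t) (ht1 : t ≤ 1)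
    (hε : 0 < ε) (hDm : D ≤ m) (hε1 : ((m : ℝ) + 3) * ε < D) (hε3 : ε ≤ 1 / 3)
    (σ : Sys m (Fin K)) (hσ : σ.Ok B R') (F : Set (Fin m → ℝ)) (x0 : Fin m → ℝ)
    (hF : ∀ ω : ℕ → Fin K, (fun c => x0 c + ∑' j : ℕ, (σ.ph j (ω j) c + t * (σ.dg j (ω j) c : ℝ))
      / (B : ℝ) ^ (j + 1)) ∈ F)
    (Δ : ℕ) (hΔ : 4 * (R' + B) + 2 ≤ (Δ : ℝ))
    (ha : (m : ℝ) * Real.log Δ ≤ ε * (2 : ℝ) ^ a * Real.log B) (N0 : ℕ)
    (hN0 : ∀ N, N0 ≤ N → (((Finset.range N).filter (fun q => ent (univ : Finset (Fin (2 ^ a) → Fin K))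
        (fun u => fl (σ.P B t (q * 2 ^ a) (2 ^ a) u)) < (D - ε - ε) * 2 ^ a * Real.log B)).card : ℝ)
        ≤ ε * N) :
    ENNReal.ofReal (D - (m + 3) * ε) ≤ dimH F := by
  classical
  have hBR : (1 : ℝ) < (B : ℝ) := by exact_mod_cast (by omega : 1 < B)
  have hB0 : (0 : ℝ) < (B : ℝ) := by linarith
  have hlB : 0 < Real.log (B : ℝ) := Real.log_pos hBR
  have hmR : (1 : ℝ) ≤ (m : ℝ) := by exact_mod_cast hm
  have hΔ1 : (1 : ℝ) ≤ (Δ : ℝ) := by linarith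
  have hΔ1' : 1 ≤ Δ := by exact_mod_cast hΔ1
  have : Nonempty (Fin K) := ⟨⟨0, by omega⟩⟩
  set n : ℕ := 2 ^ a with hn
  have hn1 : 1 ≤ n := Nat.one_le_two_pow
  have hnR : (n : ℝ) = (2 : ℝ) ^ a := by rw [hn]; push_cast; rfl
  have hnR1 : (1 : ℝ) ≤ (n : ℝ) := by exact_mod_cast hn1
  -- selection of words in every block
  have hsel := fun j : ℕ => hfin_sel hE2 m (fun u : Fin n → Fin K => σ.P B t (j * n) n u) Δ hΔ1'
  choose nn w hnn1 hnn2 hnn3 using hsel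
  set Λ : ℕ := B ^ n with hΛ
  have hΛR : (Λ : ℝ) = (B : ℝ) ^ n := by rw [hΛ]; push_cast; rfl
  have hΛ2 : 2 ≤ Λ := by
    calc 2 ≤ B := hB
      _ = B ^ 1 := (pow_one _).symm
      _ ≤ B ^ n := Nat.pow_le_pow_right (by omega) hn1
  have hΛ1 : (1 : ℝ) < (Λ : ℝ) := by exact_mod_cast (by omega : 1 < Λ)
  have hΛ0 : (0 : ℝ) < (Λ : ℝ) := by linarith
  have hlΛ : Real.log (Λ : ℝ) = n * Real.log B := by rw [hΛR, Real.log_pow]
  set s0 : ℝ := D - (m + 3) * ε with hs0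
  have hs0p : 0 < s0 := by rw [hs0]; linarith
  set G : ℝ := Real.exp ((D - ε - ε) * 2 ^ a * Real.log B) / (Δ : ℝ) ^ m with hG
  have hΔm : (0 : ℝ) < (Δ : ℝ) ^ m := by positivity
  have hGlog : Real.log G = (D - ε - ε) * 2 ^ a * Real.log B - m * Real.log Δ := by
    rw [hG, Real.log_div (Real.exp_pos _).ne' hΔm.ne', Real.log_exp, Real.log_pow]
  have hG0 : 0 < G := by rw [hG]; positivity
  have h2a : (0 : ℝ) < (2 : ℝ) ^ a := by positivity
  have hX : 0 < (2 : ℝ) ^ a * Real.log B := mul_pos h2a hlB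
  have hGl1 : (D - 3 * ε) * ((2 : ℝ) ^ a * Real.log B) ≤ Real.log G := by
    rw [hGlog]
    nlinarith [ha]
  have hD3 : 0 ≤ D - 3 * ε := by
    have h1 : 0 ≤ (m : ℝ) * ε := by positivity
    nlinarith
  have hGl0 : 0 ≤ Real.log G := le_trans (mul_nonneg hD3 hX.le) hGl1
  have hG1 : 1 ≤ G := by
    by_contra h
    push Not at h
    have := Real.log_neg hG0 h
    linarith
  set p : ℕ → Prop := fun q => ent (univ : Finset (Fin (2 ^ a) → Fin K))
        (fun u => fl (σ.P B t (q * 2 ^ a) (2 ^ a) u)) < (D - ε - ε) * 2 ^ a * Real.log B with hp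
  have hgood : ∀ i, ¬ p i → G ≤ nn i := by
    intro i hi
    have h1 : (D - ε - ε) * 2 ^ a * Real.log B ≤ ent (univ : Finset (Fin n → Fin K))
        (fun u => fl (σ.P B t (i * n) n u)) := not_lt.1 hi
    refine le_trans ?_ (hnn2 i)
    rw [hG]
    exact div_le_div_of_nonneg_right (Real.exp_le_exp.2 h1) hΔm.le
  obtain ⟨-, hPB2, -, -, -⟩ := hPB m B R' t (Fin K) σ hB hR' ht0 ht1 hσ
  have hbd : ∀ i s c, |σ.ph i s c + t * (σ.dg i s c : ℝ)| ≤ R' + B := by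
    intro i s c
    have h1 := hσ.2.2 i s c
    have h2 := hσ.1 i s c
    have h3 : (0 : ℝ) ≤ (σ.dg i s c : ℝ) := by exact_mod_cast h2.1
    have h4 : (σ.dg i s c : ℝ) ≤ (B : ℝ) := by exact_mod_cast h2.2.le
    have h5 : |t * (σ.dg i s c : ℝ)| ≤ B := by
      rw [abs_of_nonneg (mul_nonneg ht0 h3)]
      nlinarith
    calc |σ.ph i s c + t * (σ.dg i s c : ℝ)| ≤ |σ.ph i s c| + |t * (σ.dg i s c : ℝ)| := abs_add_le _ _
      _ ≤ R' + B := add_le_add h1 h5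
  refine hM m Λ (R' + B) s0 ((Λ : ℝ) ^ (-(s0 * (N0 : ℝ)))) F x0 nn
    (fun j s c => σ.P B t (j * n) n (w j s) c) hΛ2 (by positivity) hs0p
    (Real.rpow_pos_of_pos hΛ0 _) hnn1 ?_ ?_ ?_ ?_
  · intro j s c _
    rw [hΛR]
    exact hPB2 _ _ _ _
  · intro j s s' hs hs' hne
    obtain ⟨c, hc⟩ := hnn3 j s s' hs hs' hne
    exact ⟨c, le_trans (by linarith) hc⟩
  · intro ω hω
    have h := hF (fun i => w (i / n) (ω (i / n)) ⟨i % n, Nat.mod_lt _ (by omega)⟩)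
    have e : (fun c => x0 c + ∑' j : ℕ, σ.P B t (j * n) n (w j (ω j)) c / (Λ : ℝ) ^ (j + 1))
        = (fun c => x0 c + ∑' j : ℕ, (σ.ph j (w (j / n) (ω (j / n)) ⟨j % n, Nat.mod_lt _ (by omega)⟩) c
          + t * (σ.dg j (w (j / n) (ω (j / n)) ⟨j % n, Nat.mod_lt _ (by omega)⟩) c : ℝ))
            / (B : ℝ) ^ (j + 1)) := by
      funext c
      congr 1
      rw [hfin_tsum n hn1 (B : ℝ) hBR (fun j => σ.ph j (w (j / n) (ω (j / n))
        ⟨j % n, Nat.mod_lt _ (by omega)⟩) c + t * (σ.dg j (w (j / n) (ω (j / n))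
        ⟨j % n, Nat.mod_lt _ (by omega)⟩) c : ℝ)) (R' + B) (fun i => hbd _ _ _)]
      refine tsum_congr fun j => ?_
      rw [hΛR]
      congr 1
      unfold Sys.P
      refine Finset.sum_congr rfl fun q _ => ?_
      have e1 : (j * n + (q : ℕ)) / n = j := by
        rw [Nat.add_comm, Nat.add_mul_div_right _ _ (by omega : 0 < n), Nat.div_eq_of_lt q.2, zero_add]
      have e2 : (j * n + (q : ℕ)) % n = q := by
        rw [Nat.add_comm, Nat.add_mul_mod_self_right, Nat.mod_eq_of_lt q.2]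
      have e3 : w ((j * n + (q : ℕ)) / n) (ω ((j * n + (q : ℕ)) / n))
          ⟨(j * n + (q : ℕ)) % n, Nat.mod_lt _ (by omega)⟩ = w j (ω j) q := by
        have e4 : (⟨(j * n + (q : ℕ)) % n, Nat.mod_lt _ (by omega)⟩ : Fin n) = q := Fin.ext e2
        rw [e4, e1]
      rw [e3]
    rw [e]
    exact h
  · intro j
    have hprod1 : (1 : ℝ) ≤ ∏ i ∈ Finset.range j, (nn i : ℝ) := by
      calc (1 : ℝ) = ∏ i ∈ Finset.range j, (1 : ℝ) := (Finset.prod_const_one).symm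
        _ ≤ ∏ i ∈ Finset.range j, (nn i : ℝ) :=
          Finset.prod_le_prod (fun i _ => zero_le_one) (fun i _ => by exact_mod_cast hnn1 i)
    rcases le_or_gt N0 j with hj | hj
    · have h1 := hfin_prod nn p G ε hG1 hnn1 hgood j (hN0 j hj)
      have hj0 : (0 : ℝ) ≤ (j : ℝ) := Nat.cast_nonneg j
      have hc0 : (Λ : ℝ) ^ (-(s0 * (N0 : ℝ))) ≤ 1 :=
        Real.rpow_le_one_of_one_le_of_nonpos hΛ1.le (by
          have : 0 ≤ s0 * (N0 : ℝ) := by positivity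
          linarith)
      calc (Λ : ℝ) ^ (-(s0 * (N0 : ℝ))) * (Λ : ℝ) ^ (s0 * (j : ℝ))
          ≤ 1 * (Λ : ℝ) ^ (s0 * (j : ℝ)) :=
            mul_le_mul_of_nonneg_right hc0 (Real.rpow_nonneg hΛ0.le _)
        _ = Real.exp (Real.log Λ * (s0 * j)) := by
            rw [one_mul, Real.rpow_def_of_pos hΛ0]
        _ ≤ Real.exp (Real.log G * ((1 - ε) * j)) := by
            refine Real.exp_le_exp.2 ?_
            rw [hlΛ, hnR]
            have h3 : s0 * ((2 : ℝ) ^ a * Real.log B) ≤ (1 - ε) * Real.log G := by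
              calc s0 * ((2 : ℝ) ^ a * Real.log B)
                  ≤ ((1 - ε) * (D - 3 * ε)) * ((2 : ℝ) ^ a * Real.log B) := by
                    refine mul_le_mul_of_nonneg_right ?_ hX.le
                    rw [hs0]
                    nlinarith
                _ = (1 - ε) * ((D - 3 * ε) * ((2 : ℝ) ^ a * Real.log B)) := by ring
                _ ≤ (1 - ε) * Real.log G := mul_le_mul_of_nonneg_left hGl1 (by linarith)
            nlinarith [mul_le_mul_of_nonneg_right h3 hj0]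
        _ = G ^ ((1 - ε) * (j : ℝ)) := by rw [Real.rpow_def_of_pos hG0]
        _ ≤ ∏ i ∈ Finset.range j, (nn i : ℝ) := h1
    · refine le_trans ?_ hprod1
      rw [← Real.rpow_add hΛ0]
      refine Real.rpow_le_one_of_one_le_of_nonpos hΛ1.le ?_
      have : (j : ℝ) ≤ (N0 : ℝ) := by exact_mod_cast hj.le
      nlinarith


/-- a segment inside `E` gives dimension at least one -/
theorem hfinc_seg (m : ℕ) (E : Set (EuclideanSpace ℝ (Fin (m + 1)))) (y : Fin m → ℝ)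
    (hE : ∀ t : ℝ, 0 ≤ t → t ≤ 1 → pt y t ∈ E) : (1 : ENNReal) ≤ dimH E := by
  have hlip : LipschitzWith 1 (fun v : EuclideanSpace ℝ (Fin (m + 1)) => v (Fin.last m)) := by
    refine LipschitzWith.of_dist_le_mul fun v w => ?_
    rw [NNReal.coe_one, one_mul, dist_eq_norm, dist_eq_norm]
    have h := PiLp.norm_apply_le (v - w) (Fin.last m)
    exact h
  have h1 : Set.Icc (0 : ℝ) 1 ⊆ (fun v : EuclideanSpace ℝ (Fin (m + 1)) => v (Fin.last m)) '' E := by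
    intro t ht
    refine ⟨pt y t, hE t ht.1 ht.2, ?_⟩
    simp [pt]
  have h2 : dimH (Set.Icc (0 : ℝ) 1) = 1 := by
    have h3 : (interior (Set.Icc (0 : ℝ) 1)).Nonempty := by
      rw [interior_Icc]
      exact ⟨1 / 2, by norm_num, by norm_num⟩
    rw [Real.dimH_of_nonempty_interior h3]
    simp
  calc (1 : ENNReal) = dimH (Set.Icc (0 : ℝ) 1) := h2.symm
    _ ≤ dimH ((fun v : EuclideanSpace ℝ (Fin (m + 1)) => v (Fin.last m)) '' E) := dimH_mono h1
    _ ≤ dimH E := hlip.dimH_image_le E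

theorem st_HFINC (hCO : ST_COREH) (hSL : ST_SLICE) (hM : ST_MORAN) (hA : ST_AUTC) (hPOW : ST_CPOW)
    (hPB : ST_PB) (hE2 : ST_E2) : ST_HFINC := by
  intro m b Lp Np R hm hb hLp hNp hR a E hst hcp hfi hE
  have hmR : (1 : ℝ) ≤ (m : ℝ) := by exact_mod_cast hm
  have hlb : 0 < Real.log b := Real.log_pos (by exact_mod_cast (by omega : 1 < b))
  obtain ⟨h, hh⟩ : ∃ h : ℝ, h = Real.log Np / (Lp * Real.log b) := ⟨_, rfl⟩
  have hh0 : 0 ≤ h := by
    rw [hh]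
    exact div_nonneg (Real.log_natCast_nonneg _) (by positivity)
  rw [← hh]
  rcases le_or_gt (m : ℝ) h with hmh | hhm
  · -- a single segment
    have h0 : (0 : Fin m → ℝ) ∈ cube m := fun c => ⟨le_rfl, zero_lt_one⟩
    refine le_trans ?_ (hfinc_seg m E (a 0) ?_)
    · rw [← ENNReal.ofReal_one]
      exact ENNReal.ofReal_le_ofReal (by linarith)
    · intro t ht0 ht1
      have h1 := hE 0 h0 t ht0 ht1
      have e : (fun c => a 0 c + t * (0 : Fin m → ℝ) c) = a 0 := by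
        funext c
        simp
      rw [e] at h1
      exact h1
  -- lower bound
  set D : ℝ := (m : ℝ) - h with hD
  have hD0 : 0 < D := by rw [hD]; linarith
  have hDm : D ≤ m := by rw [hD]; linarith
  have key : ∀ ε : ℝ, 0 < ε → ((m : ℝ) + 3) * ε < D → ε ≤ 1 / 3 →
      ENNReal.ofReal (D - (m + 3) * ε + 1) ≤ dimH E := by
    intro ε hε hε1 hε3
    obtain ⟨p, hp1, hK, hlog⟩ := mfinc_K m Np Lp b h ε hm hb hLp hNp hh hhm hε
    obtain ⟨L, hLd⟩ : ∃ L : ℕ, L = p * Lp := ⟨_, rfl⟩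
    rw [← hLd] at hK hlog
    obtain ⟨K, hKd⟩ : ∃ K : ℕ, K = (b ^ L - 1) ^ m / Np ^ p := ⟨_, rfl⟩
    rw [← hKd] at hK hlog
    have hL : 1 ≤ L := by rw [hLd]; exact Nat.mul_pos (by omega) (by omega)
    have hKr : K * Np ^ p ≤ (b ^ L - 1) ^ m := by rw [hKd]; exact Nat.div_mul_le_self _ _
    have hcpp : Cplx a b L (Np ^ p) := by rw [hLd]; exact hPOW m b Lp Np p a hm hb hcp
    obtain ⟨σ, hσ, -, hinf, hrange⟩ := hA m b (Np ^ p) L K R a hm hb hL hR hK hKr hst hcpp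
    have hB2 : 2 ≤ b ^ L := by
      calc 2 ≤ b := hb
        _ = b ^ 1 := (pow_one _).symm
        _ ≤ b ^ L := Nat.pow_le_pow_right (by omega) hL
    have hBR : (1 : ℝ) < ((b ^ L : ℕ) : ℝ) := by exact_mod_cast (by omega : 1 < b ^ L)
    have hlB : 0 < Real.log ((b ^ L : ℕ) : ℝ) := Real.log_pos hBR
    have hR' : 0 ≤ (b : ℝ) ^ L * R := by positivity
    have : Nonempty (Fin K) := ⟨⟨0, by omega⟩⟩
    obtain ⟨Δ, hΔ⟩ := exists_nat_ge (4 * ((b : ℝ) ^ L * R + ((b ^ L : ℕ) : ℝ)) + 2)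
    obtain ⟨amin, hamin⟩ := exists_nat_ge ((m : ℝ) * Real.log Δ / (ε * Real.log ((b ^ L : ℕ) : ℝ)))
    have hco := hCO m (b ^ L) ((b : ℝ) ^ L * R) (h + ε) ε amin hm hB2 hR' (by linarith) hε (Fin K) σ hσ
      (by rw [Fintype.card_fin]; exact hlog) (hrange hfi)
    have hDe : (m : ℝ) - (h + ε) - ε = D - ε - ε := by rw [hD]; ring
    rw [hDe] at hco
    set P : ℝ → Prop := fun t => ∃ a, amin ≤ a ∧ ∃ N0 : ℕ, ∀ N, N0 ≤ N →
      (((Finset.range N).filter (fun q => ent (univ : Finset (Fin (2 ^ a) → Fin K))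
        (fun u => fl (σ.P (b ^ L) t (q * 2 ^ a) (2 ^ a) u))
          < (D - ε - ε) * 2 ^ a * Real.log ((b ^ L : ℕ) : ℝ))).card : ℝ) ≤ ε * N with hP
    have hco' : ∀ᵐ t : ℝ, 0 ≤ t → t ≤ 1 → P t := hco
    refine hSL m E {t | 0 ≤ t ∧ t ≤ 1 ∧ P t} (D - (m + 3) * ε) (by linarith) ?_ ?_
    · intro h0
      have h1 : ∀ᵐ t : ℝ, t ∉ {t : ℝ | 0 ≤ t ∧ t ≤ 1 ∧ P t} := measure_eq_zero_iff_ae_notMem.1 h0
      have h2 : ∀ᵐ t : ℝ, t ∉ Set.Icc (0 : ℝ) 1 := by
        filter_upwards [h1, hco'] with t ht1 ht2 ht3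
        exact ht1 ⟨ht3.1, ht3.2, ht2 ht3.1 ht3.2⟩
      have h3 : volume (Set.Icc (0 : ℝ) 1) = 0 := measure_eq_zero_iff_ae_notMem.2 h2
      rw [Real.volume_Icc] at h3
      norm_num at h3
    · rintro t ⟨ht0, ht1, a', ha', N0, hN0⟩
      refine hfinc_slice hE2 hPB hM m K (b ^ L) a' ((b : ℝ) ^ L * R) ε t D hm hB2 hK hR' ht0 ht1 hε
        hDm hε1 hε3 σ hσ _ (a 0) ?_ Δ hΔ ?_ N0 hN0
      · intro ω
        obtain ⟨x, hx, hx2⟩ := hinf ω
        show pt (fun c => a 0 c + ∑' j : ℕ, (σ.ph j (ω j) c + t * (σ.dg j (ω j) c : ℝ))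
          / ((b ^ L : ℕ) : ℝ) ^ (j + 1)) t ∈ E
        have e : (fun c => a 0 c + ∑' j : ℕ, (σ.ph j (ω j) c + t * (σ.dg j (ω j) c : ℝ))
            / ((b ^ L : ℕ) : ℝ) ^ (j + 1)) = (fun c => a x c + t * x c) := by
          funext c
          rw [hx2 t c]
          push_cast
          rfl
        rw [e]
        exact hE x hx t ht0 ht1
      · have h1 : (m : ℝ) * Real.log Δ ≤ (amin : ℝ) * (ε * Real.log ((b ^ L : ℕ) : ℝ)) :=
          (div_le_iff₀ (by positivity)).1 hamin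
        have h2 : (amin : ℝ) ≤ (2 : ℝ) ^ a' := by
          have h3 : amin ≤ 2 ^ a' := le_trans ha' (Nat.lt_two_pow_self).le
          exact_mod_cast h3
        calc (m : ℝ) * Real.log Δ ≤ (amin : ℝ) * (ε * Real.log ((b ^ L : ℕ) : ℝ)) := h1
          _ ≤ (2 : ℝ) ^ a' * (ε * Real.log ((b ^ L : ℕ) : ℝ)) :=
            mul_le_mul_of_nonneg_right h2 (by positivity)
          _ = ε * (2 : ℝ) ^ a' * Real.log ((b ^ L : ℕ) : ℝ) := by ring
  by_contra hlt
  push Not at hlt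
  have hne : dimH E ≠ ⊤ := ne_top_of_lt hlt
  set d : ℝ := (dimH E).toReal with hd
  have hdE : dimH E = ENNReal.ofReal d := (ENNReal.ofReal_toReal hne).symm
  have hd0 : 0 ≤ d := ENNReal.toReal_nonneg
  have hdm : d < D + 1 := by
    have h1 : ENNReal.ofReal d < ENNReal.ofReal ((m : ℝ) + 1 - h) := by
      rw [← hdE]
      exact hlt
    have h2 := (ENNReal.ofReal_lt_ofReal_iff_of_nonneg hd0).1 h1
    rw [hD]
    linarith
  set ε : ℝ := min (min ((D + 1 - d) / (2 * (m + 3))) (D / (2 * (m + 3)))) (1 / 3) with hεd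
  have hm3 : (0 : ℝ) < (m : ℝ) + 3 := by positivity
  have hε0 : 0 < ε := lt_min (lt_min (div_pos (by linarith) (by positivity)) (by positivity)) (by norm_num)
  have hεa : ((m : ℝ) + 3) * ε ≤ (D + 1 - d) / 2 := by
    calc ((m : ℝ) + 3) * ε ≤ (m + 3) * ((D + 1 - d) / (2 * (m + 3))) :=
          mul_le_mul_of_nonneg_left ((min_le_left _ _).trans (min_le_left _ _)) hm3.le
      _ = (D + 1 - d) / 2 := by field_simp
  have hεb : ((m : ℝ) + 3) * ε ≤ D / 2 := by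
    calc ((m : ℝ) + 3) * ε ≤ (m + 3) * (D / (2 * (m + 3))) :=
          mul_le_mul_of_nonneg_left ((min_le_left _ _).trans (min_le_right _ _)) hm3.le
      _ = D / 2 := by field_simp
  have h1 := key ε hε0 (by linarith) (min_le_right _ _)
  rw [hdE] at h1
  have h2 := (ENNReal.ofReal_le_ofReal_iff hd0).1 h1
  linarith

end Pool.Agent.Helper70.DK
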